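import Pool.Agent.H8.TX.Targets

/-!
# Threefolds, row NPA: the norm polynomial of a rational function
-/

set_option autoImplicit false

open MvPolynomial
open Pool.Agent.H12.ZD (pmap)
open Pool.Agent.H18.HIT Pool.Agent.H18.HX Pool.Agent.H18.VZ
open Pool.Agent.H8.ZA (HFam Const NA)
open Pool.Agent.H8.TD (lc dg Wsp Cop dh)
open Pool.Agent.H8.TX

namespace Pool.Agent.H77.TX

/-! ### The resultant -/

section

variable {S B : Type} [CommRing S] [CommRing B]

/-- the norm polynomial as a resultant -/
noncomputable def nres (p0 p1 q0 : Polynomial S) (r n : ℕ) : Polynomial S :=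
  Polynomial.resultant (p0.map Polynomial.C)
    (Polynomial.C Polynomial.X * q0.map Polynomial.C - p1.map Polynomial.C) r n

theorem nres_map [Nontrivial B] (φ : S →+* B) (p0 p1 q0 : Polynomial S) (r n : ℕ)
    (hn : q0.natDegree ≤ n) (hn' : p1.natDegree ≤ n) (u : Fin r → B)
    (hu : p0.map φ = ∏ j, (Polynomial.X - Polynomial.C (u j))) :
    (nres p0 p1 q0 r n).map φ = ∏ j, (Polynomial.C ((q0.map φ).eval (u j)) * Polynomial.X -
      Polynomial.C ((p1.map φ).eval (u j))) := by
  have hc : ∀ f : Polynomial S, (f.map Polynomial.C).map (Polynomial.mapRingHom φ) =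
      (f.map φ).map Polynomial.C := by
    intro f
    rw [Polynomial.map_map, Polynomial.map_map]
    congr 1
    ext x
    simp
  have h1 : (nres p0 p1 q0 r n).map φ = Polynomial.resultant
      ((p0.map φ).map Polynomial.C)
      (Polynomial.C Polynomial.X * (q0.map φ).map Polynomial.C - (p1.map φ).map Polynomial.C)
        r n := by
    unfold nres
    rw [← Polynomial.coe_mapRingHom, ← Polynomial.resultant_map_map, hc, Polynomial.map_sub,
      Polynomial.map_mul, Polynomial.map_C, hc, hc, Polynomial.coe_mapRingHom, Polynomial.map_X]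
  have h2 : (p0.map φ).map (Polynomial.C : B →+* Polynomial B) =
      ∏ j, (Polynomial.X - Polynomial.C (Polynomial.C (u j))) := by
    rw [hu, Polynomial.map_prod]
    refine Finset.prod_congr rfl fun j _ => ?_
    rw [Polynomial.map_sub, Polynomial.map_X, Polynomial.map_C]
  have h3 : (∏ j : Fin r, (Polynomial.X - Polynomial.C (Polynomial.C (u j)) :
      Polynomial (Polynomial B))).natDegree = r := by
    rw [Polynomial.natDegree_prod_of_monic _ _ fun j _ => Polynomial.monic_X_sub_C _]
    simp
  have hdeg : (Polynomial.C Polynomial.X * (q0.map φ).map Polynomial.C -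
      (p1.map φ).map Polynomial.C : Polynomial (Polynomial B)).natDegree ≤ n := by
    refine (Polynomial.natDegree_sub_le _ _).trans (max_le ?_ ?_)
    · refine (Polynomial.natDegree_C_mul_le _ _).trans ?_
      exact (Polynomial.natDegree_map_le.trans Polynomial.natDegree_map_le).trans hn
    · exact (Polynomial.natDegree_map_le.trans Polynomial.natDegree_map_le).trans hn'
  have h4 := Polynomial.resultant_prod_left (Finset.univ : Finset (Fin r))
    (fun j => (Polynomial.X - Polynomial.C (Polynomial.C (u j)) : Polynomial (Polynomial B)))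
    (Polynomial.C Polynomial.X * (q0.map φ).map Polynomial.C - (p1.map φ).map Polynomial.C) n
    (by
      rw [Finset.prod_congr rfl fun j _ => Polynomial.leadingCoeff_X_sub_C _]
      simp) hdeg
  rw [h3] at h4
  rw [h1, h2, h4]
  refine Finset.prod_congr rfl fun j _ => ?_
  rw [Polynomial.natDegree_X_sub_C, Polynomial.resultant_X_sub_C_left _ _ _ hdeg,
    Polynomial.eval_sub, Polynomial.eval_mul, Polynomial.eval_C, Polynomial.eval_map,
    Polynomial.eval_map, Polynomial.eval₂_at_apply, Polynomial.eval₂_at_apply]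
  ring

end

/-! ### Evaluation, homogeneity -/

section

variable {k : Type} [Field k]

theorem npa_scale {ι A : Type} [CommRing A] [Algebra k A] (P : MvPolynomial ι k)
    (e : ℕ) (hP : P.IsHomogeneous e) (c : A) (x : ι → A) :
    aeval (fun i => c * x i) P = c ^ e * aeval x P := by
  rw [aeval_def, aeval_def, eval₂_eq, eval₂_eq, Finset.mul_sum]
  refine Finset.sum_congr rfl fun m hm => ?_
  have h1 : ∑ i ∈ m.support, m i = e := by
    have h := hP (mem_support_iff.1 hm)
    rw [Finsupp.weight_apply, Finsupp.sum] at h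
    simpa using h
  rw [← h1, ← Finset.prod_pow_eq_pow_sum]
  have h2 : ∏ i ∈ m.support, (c * x i) ^ m i = (∏ i ∈ m.support, c ^ m i) *
      ∏ i ∈ m.support, x i ^ m i := by
    rw [← Finset.prod_mul_distrib]
    exact Finset.prod_congr rfl fun i _ => mul_pow _ _ _
  rw [h2]
  ring

theorem fin_eval {L : Type} [Field L] [Algebra k L] (φ : Po 4 k →ₐ[k] L) (y : L) (q : Po 5 k) :
    ((finSuccEquiv k 4 q).map (φ : Po 4 k →+* L)).eval y =
      aeval (Fin.cons y (fun i => φ (X i)) : Fin 5 → L) q := by
  induction q using MvPolynomial.induction_on with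
  | C a =>
    have h2 : finSuccEquiv k 4 (C a) = Polynomial.C (C a) := by
      have h3 : finSuccEquiv k 4 (algebraMap k (Po 5 k) a) =
          algebraMap k (Polynomial (Po 4 k)) a := (finSuccEquiv k 4).commutes a
      exact h3
    rw [h2, Polynomial.map_C, Polynomial.eval_C, aeval_C]
    exact φ.commutes a
  | add p q hp hq => rw [map_add, Polynomial.map_add, Polynomial.eval_add, hp, hq, map_add]
  | mul_X p i hp =>
    rw [map_mul, Polynomial.map_mul, Polynomial.eval_mul, hp, map_mul, aeval_X]
    congr 1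
    refine Fin.cases ?_ (fun j => ?_) i
    · rw [finSuccEquiv_X_zero, Polynomial.map_X, Polynomial.eval_X, Fin.cons_zero]
    · rw [finSuccEquiv_X_succ, Polynomial.map_C, Polynomial.eval_C, Fin.cons_succ]
      rfl

/-- multiplication of the variables by `2` -/
noncomputable def h2 (k : Type) [Field k] : Po 4 k →ₐ[k] Po 4 k := aeval fun i => C 2 * X i

theorem h2_hom (F : Po 4 k) (t : ℕ) (hF : F.IsHomogeneous t) : h2 k F = C (2 ^ t) * F := by
  unfold h2
  rw [npa_scale F t hF, aeval_X_left_apply, map_pow]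

theorem hom_of_h2 [CharZero k] (F : Po 4 k) (n : ℕ) (h : h2 k F = C (2 ^ n) * F) :
    F.IsHomogeneous n := by
  have h1 : ∀ t, t ≠ n → homogeneousComponent t F = 0 := by
    intro t htn
    have h3 : homogeneousComponent t (h2 k F) = C (2 ^ t) * homogeneousComponent t F := by
      conv_lhs => rw [← sum_homogeneousComponent F]
      rw [map_sum, map_sum]
      have h4 : ∀ s ∈ Finset.range (F.totalDegree + 1),
          homogeneousComponent t (h2 k (homogeneousComponent s F)) =
            if t = s then C (2 ^ s) * homogeneousComponent s F else 0 := by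
        intro s _
        rw [h2_hom _ s (homogeneousComponent_isHomogeneous s F), homogeneousComponent_C_mul,
          homogeneousComponent_of_mem (homogeneousComponent_mem s F)]
        split_ifs with h5
        · rfl
        · rw [mul_zero]
      rw [Finset.sum_congr rfl h4, Finset.sum_ite_eq]
      split_ifs with h6
      · rfl
      · rw [homogeneousComponent_eq_zero t F (by
          rw [Finset.mem_range] at h6
          omega), mul_zero]
    have h4 : homogeneousComponent t (h2 k F) = C (2 ^ n) * homogeneousComponent t F := by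
      rw [h, homogeneousComponent_C_mul]
    rw [h3] at h4
    have h5 : (C ((2 : k) ^ t - 2 ^ n) : Po 4 k) * homogeneousComponent t F = 0 := by
      rw [map_sub, sub_mul, h4, sub_self]
    rcases mul_eq_zero.1 h5 with h6 | h6
    · exfalso
      rw [C_eq_zero, sub_eq_zero] at h6
      have h7 : ((2 ^ t : ℕ) : k) = ((2 ^ n : ℕ) : k) := by push_cast; exact h6
      exact htn (Nat.pow_right_injective le_rfl (Nat.cast_injective h7))
    · exact h6
  have h2' : F = homogeneousComponent n F := by
    conv_lhs => rw [← sum_homogeneousComponent F]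
    by_cases hn : n ∈ Finset.range (F.totalDegree + 1)
    · rw [Finset.sum_eq_single n (fun t _ ht => h1 t ht) (fun h => absurd hn h)]
    · rw [Finset.sum_eq_zero fun t ht => h1 t fun h => hn (h ▸ ht),
        homogeneousComponent_eq_zero n F (by
          rw [Finset.mem_range] at hn
          omega)]
  rw [h2']
  exact homogeneousComponent_isHomogeneous n F

theorem nat_deg (P : Po 5 k) (r : ℕ) (hP : P.IsHomogeneous r) (hm : (finSuccEquiv k 4 P).Monic) :
    (finSuccEquiv k 4 P).natDegree = r := by
  have hP0 : P ≠ 0 := by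
    rintro rfl
    rw [map_zero] at hm
    exact hm.ne_zero rfl
  have h1 : (finSuccEquiv k 4 P).natDegree ≤ r := by
    rw [natDegree_finSuccEquiv]
    exact (degreeOf_le_totalDegree P 0).trans hP.totalDegree_le
  have h2 := hP.finSuccEquiv_coeff_isHomogeneous (finSuccEquiv k 4 P).natDegree
    (r - (finSuccEquiv k 4 P).natDegree) (by omega)
  rw [Polynomial.coeff_natDegree, hm.leadingCoeff] at h2
  have h3 := h2.inj_right (isHomogeneous_one (Fin 4) k) one_ne_zero
  omega

end

/-! ### The roots -/

theorem exists_fin_roots {L : Type} [Field L] [IsAlgClosed L] (f : Polynomial L) (hf : f.Monic)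
    (r : ℕ) (hr : f.natDegree = r) : ∃ u : Fin r → L,
    f = ∏ j, (Polynomial.X - Polynomial.C (u j)) := by
  have h1 : f = (f.roots.map fun a => Polynomial.X - Polynomial.C a).prod :=
    (IsAlgClosed.splits f).eq_prod_roots_of_monic hf
  have h2 : f.roots.card = r := by rw [← hr]; exact (IsAlgClosed.splits f).natDegree_eq_card_roots.symm
  obtain ⟨l, hl⟩ : ∃ l : List L, (l : Multiset L) = f.roots := ⟨f.roots.toList, f.roots.coe_toList⟩
  have h3 : l.length = r := by rw [← h2, ← hl, Multiset.coe_card]
  subst h3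
  refine ⟨fun j => l.get j, ?_⟩
  conv_lhs => rw [h1, ← hl]
  rw [Multiset.map_coe, Multiset.prod_coe]
  have h4 : (List.ofFn fun j : Fin l.length => Polynomial.X - Polynomial.C (l.get j)).prod =
    ∏ j : Fin l.length, (Polynomial.X - Polynomial.C (l.get j)) := List.prod_ofFn
  rw [← h4]
  congr 1
  have h5 : l = List.ofFn l.get := (List.ofFn_get l).symm
  conv_lhs => rw [h5]
  rw [List.map_ofFn]
  rfl

theorem fin_up {k : Type} [Field k] (c : Po 4 k) :
    finSuccEquiv k 4 (up c) = Polynomial.C c := by
  unfold up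
  induction c using MvPolynomial.induction_on with
  | C a =>
    rw [rename_C]
    have h3 : finSuccEquiv k 4 (algebraMap k (Po 5 k) a) =
        algebraMap k (Polynomial (Po 4 k)) a := (finSuccEquiv k 4).commutes a
    exact h3
  | add p q hp hq => rw [map_add, map_add, hp, hq, map_add]
  | mul_X p i hp => rw [map_mul, map_mul, hp, rename_X, finSuccEquiv_X_succ, map_mul]

/-- the algebraic closure of the field of rational functions -/
abbrev LA (k : Type) [Field k] : Type := AlgebraicClosure (FractionRing (Po 4 k))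

/-- the embedding -/
noncomputable def io (k : Type) [Field k] : Po 4 k →ₐ[k] LA k :=
  IsScalarTower.toAlgHom k (Po 4 k) (LA k)

theorem io_inj (k : Type) [Field k] : Function.Injective (io k) := by
  have h1 : ∀ x, io k x = algebraMap (FractionRing (Po 4 k)) (LA k)
      (algebraMap (Po 4 k) (FractionRing (Po 4 k)) x) := fun x =>
    IsScalarTower.algebraMap_apply (Po 4 k) (FractionRing (Po 4 k)) (LA k) x
  intro x y hxy
  rw [h1, h1] at hxy
  exact IsFractionRing.injective (Po 4 k) (FractionRing (Po 4 k))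
    ((algebraMap (FractionRing (Po 4 k)) (LA k)).injective hxy)

theorem dvd_of_root {k : Type} [Field k] (p0 z : Polynomial (Po 4 k)) (hm : p0.Monic)
    (hi : Irreducible p0) (y : LA k) (h0 : (p0.map (io k : Po 4 k →+* LA k)).eval y = 0)
    (hz : (z.map (io k : Po 4 k →+* LA k)).eval y = 0) : p0 ∣ z := by
  have hmap : ∀ f : Polynomial (Po 4 k), Polynomial.aeval y
      (f.map (algebraMap (Po 4 k) (FractionRing (Po 4 k)))) =
        (f.map (io k : Po 4 k →+* LA k)).eval y := by
    intro f
    rw [Polynomial.aeval_def, Polynomial.eval₂_map, Polynomial.eval_map]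
    rfl
  have h1 : Irreducible (p0.map (algebraMap (Po 4 k) (FractionRing (Po 4 k)))) :=
    (hm.irreducible_iff_irreducible_map_fraction_map).1 hi
  have h2 := minpoly.eq_of_irreducible_of_monic h1 (by rw [hmap]; exact h0)
    (hm.map (algebraMap (Po 4 k) (FractionRing (Po 4 k))))
  have h3 := minpoly.dvd (FractionRing (Po 4 k)) y
    (p := z.map (algebraMap (Po 4 k) (FractionRing (Po 4 k)))) (by rw [hmap]; exact hz)
  rw [← h2] at h3
  exact (Polynomial.map_dvd_map _ (IsFractionRing.injective (Po 4 k) (FractionRing (Po 4 k)))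
    hm).1 h3

theorem pf_NPA : T_NPA := by
  intro k _ _ r a P p q hP hp hq hPq
  classical
  obtain ⟨p0, hp0⟩ : ∃ p0, p0 = finSuccEquiv k 4 P := ⟨_, rfl⟩
  obtain ⟨p1, hp1⟩ : ∃ p1, p1 = finSuccEquiv k 4 p := ⟨_, rfl⟩
  obtain ⟨q0, hq0⟩ : ∃ q0, q0 = finSuccEquiv k 4 q := ⟨_, rfl⟩
  have hmon : p0.Monic := by rw [hp0]; exact hP.mon
  have hdeg : p0.natDegree = r := by rw [hp0]; exact nat_deg P r hP.hom hP.mon
  have hirr : Irreducible p0 := by
    rw [hp0]
    exact (MulEquiv.irreducible_iff (finSuccEquiv k 4)).2 hP.irr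
  have hdvd : ∀ z : Po 5 k, p0 ∣ finSuccEquiv k 4 z → P ∣ z := by
    intro z hz
    rw [hp0] at hz
    exact (map_dvd_iff (finSuccEquiv k 4)).1 hz
  have hr : 0 < r := by
    rcases Nat.eq_zero_or_pos r with h | h
    · exfalso
      rw [h] at hdeg
      have h1 := hmon.coeff_natDegree
      rw [hdeg] at h1
      have h2 := Polynomial.eq_C_of_natDegree_eq_zero hdeg
      rw [h1, map_one] at h2
      exact hirr.not_isUnit (h2 ▸ isUnit_one)
    · exact h
  have hmapdeg : (p0.map (io k : Po 4 k →+* LA k)).natDegree = r := by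
    rw [hmon.natDegree_map, hdeg]
  obtain ⟨u, hu⟩ := exists_fin_roots (p0.map (io k : Po 4 k →+* LA k)) (hmon.map _) r hmapdeg
  have hroot : ∀ j, (p0.map (io k : Po 4 k →+* LA k)).eval (u j) = 0 := by
    intro j
    rw [hu, Polynomial.eval_prod]
    refine Finset.prod_eq_zero (Finset.mem_univ j) ?_
    rw [Polynomial.eval_sub, Polynomial.eval_X, Polynomial.eval_C, sub_self]
  obtain ⟨A, hA⟩ : ∃ A : Fin r → LA k, A = fun j =>
    (q0.map (io k : Po 4 k →+* LA k)).eval (u j) := ⟨_, rfl⟩
  obtain ⟨B, hB⟩ : ∃ B : Fin r → LA k, B = fun j =>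
    (p1.map (io k : Po 4 k →+* LA k)).eval (u j) := ⟨_, rfl⟩
  have hA0 : ∀ j, A j ≠ 0 := by
    intro j h
    rw [hA] at h
    exact hPq (hdvd q (hq0 ▸ dvd_of_root p0 q0 hmon hirr (u j) (hroot j) h))
  obtain ⟨n, hn, hn'⟩ : ∃ n, q0.natDegree ≤ n ∧ p1.natDegree ≤ n :=
    ⟨max q0.natDegree p1.natDegree, le_max_left _ _, le_max_right _ _⟩
  obtain ⟨N, hNd⟩ : ∃ N : Polynomial (Po 4 k), N = nres p0 p1 q0 r n := ⟨_, rfl⟩
  have hN : N.map (io k : Po 4 k →+* LA k) =
      ∏ j, (Polynomial.C (A j) * Polynomial.X - Polynomial.C (B j)) := by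
    rw [hNd, hA, hB]
    exact nres_map (io k : Po 4 k →+* LA k) p0 p1 q0 r n hn hn' u hu
  have hfac : ∀ j, (Polynomial.C (A j) * Polynomial.X - Polynomial.C (B j) :
      Polynomial (LA k)).natDegree ≤ 1 := by
    intro j
    rw [Polynomial.natDegree_sub_C]
    exact (Polynomial.natDegree_C_mul_le _ _).trans Polynomial.natDegree_X_le
  have hNdeg : N.natDegree ≤ r := by
    rw [← Polynomial.natDegree_map_eq_of_injective (f := (io k : Po 4 k →+* LA k)) (io_inj k), hN]
    refine (Polynomial.natDegree_prod_le _ _).trans ?_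
    calc ∑ j : Fin r, (Polynomial.C (A j) * Polynomial.X - Polynomial.C (B j) :
          Polynomial (LA k)).natDegree ≤ ∑ _j : Fin r, 1 := Finset.sum_le_sum fun j _ => hfac j
      _ = r := by simp
  refine ⟨fun j => N.coeff j, ?_, ?_, ?_, ?_, ?_⟩
  · -- homogeneity
    intro j
    apply hom_of_h2
    obtain ⟨φ, hφ⟩ : ∃ φ : Po 4 k →ₐ[k] LA k, φ = (io k).comp (h2 k) := ⟨_, rfl⟩
    have hφX : ∀ i, φ (X i) = 2 * io k (X i) := by
      intro i
      rw [hφ, AlgHom.comp_apply, h2, aeval_X, map_mul]
      congr 1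
      have : (C (2 : k) : Po 4 k) = 2 := by rw [map_ofNat]
      rw [this, map_ofNat]
    have hsc : ∀ (Q : Po 5 k) (t : ℕ), Q.IsHomogeneous t → ∀ y : LA k,
        ((finSuccEquiv k 4 Q).map (φ : Po 4 k →+* LA k)).eval (2 * y) =
          2 ^ t * ((finSuccEquiv k 4 Q).map (io k : Po 4 k →+* LA k)).eval y := by
      intro Q t hQ y
      rw [fin_eval φ, fin_eval (io k), ← npa_scale Q t hQ]
      congr 1
      congr 1
      funext i
      refine Fin.cases ?_ (fun l => ?_) i
      · rw [Fin.cons_zero, Fin.cons_zero]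
      · rw [Fin.cons_succ, Fin.cons_succ, hφX]
    have hpφ : p0.map (φ : Po 4 k →+* LA k) =
        ∏ j, (Polynomial.X - Polynomial.C (2 * u j)) := by
      apply Polynomial.funext
      intro y
      have h1 := hsc P r hP.hom (y / 2)
      have h2 : 2 * (y / 2) = y := by field_simp
      rw [h2, ← hp0, hu] at h1
      rw [h1, Polynomial.eval_prod, Polynomial.eval_prod]
      have h3 : (2 : LA k) ^ r = ∏ _j : Fin r, (2 : LA k) := by simp
      rw [h3, ← Finset.prod_mul_distrib]
      refine Finset.prod_congr rfl fun j _ => ?_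
      rw [Polynomial.eval_sub, Polynomial.eval_sub, Polynomial.eval_X, Polynomial.eval_X,
        Polynomial.eval_C, Polynomial.eval_C]
      field_simp
    have hNφ : N.map (φ : Po 4 k →+* LA k) =
        Polynomial.C (2 ^ (r * a)) * N.map (io k : Po 4 k →+* LA k) := by
      have h1 := nres_map (φ : Po 4 k →+* LA k) p0 p1 q0 r n hn hn' (fun j => 2 * u j) hpφ
      rw [← hNd] at h1
      rw [h1, hN]
      have h3 : (Polynomial.C ((2 : LA k) ^ (r * a))) =
          ∏ _j : Fin r, (Polynomial.C ((2 : LA k) ^ a)) := by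
        rw [Finset.prod_const, Finset.card_univ, Fintype.card_fin, ← map_pow, ← pow_mul, mul_comm]
      rw [h3, ← Finset.prod_mul_distrib]
      refine Finset.prod_congr rfl fun j _ => ?_
      rw [hq0, hp1, hsc q a hq, hsc p a hp, ← hq0, ← hp1, hA, hB]
      simp only [map_mul]
      ring
    apply io_inj k
    have h1 := congrArg (fun f : Polynomial (LA k) => f.coeff j) hNφ
    simp only [Polynomial.coeff_map, Polynomial.coeff_C_mul] at h1
    have h2 : io k (h2 k (N.coeff j)) = (φ : Po 4 k →+* LA k) (N.coeff j) := by rw [hφ]; rfl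
    rw [h2, h1, map_mul]
    congr 1
    have h3 : (C ((2 : k) ^ (r * a)) : Po 4 k) = 2 ^ (r * a) := by rw [map_pow, map_ofNat]
    rw [h3, map_pow, map_ofNat]
  · -- the top coefficient
    intro h0
    have h0' : N.coeff r = 0 := h0
    have h1 : (N.map (io k : Po 4 k →+* LA k)).coeff r = 0 := by
      rw [Polynomial.coeff_map, h0', map_zero]
    have h2 := Polynomial.coeff_prod_of_natDegree_le (s := (Finset.univ : Finset (Fin r)))
      (fun j => (Polynomial.C (A j) * Polynomial.X - Polynomial.C (B j) : Polynomial (LA k))) 1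
      (fun j _ => hfac j)
    rw [Finset.card_univ, Fintype.card_fin, mul_one, ← hN, h1] at h2
    have h3 : ∀ j : Fin r, (Polynomial.C (A j) * Polynomial.X - Polynomial.C (B j) :
        Polynomial (LA k)).coeff 1 = A j := by
      intro j
      rw [Polynomial.coeff_sub, Polynomial.coeff_C_mul, Polynomial.coeff_X_one,
        Polynomial.coeff_C_of_ne_zero one_ne_zero, mul_one, sub_zero]
    rw [Finset.prod_congr rfl fun j _ => h3 j] at h2
    exact Finset.prod_ne_zero_iff.2 (fun j _ => hA0 j) h2.symm
  · intro j hj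
    exact Polynomial.coeff_eq_zero_of_natDegree_lt (lt_of_le_of_lt hNdeg hj)
  · -- the relation
    apply hdvd
    have h1 : finSuccEquiv k 4 (∑ j ∈ Finset.range (r + 1), up (N.coeff j) *
        (p ^ j * q ^ (r - j))) = ∑ j ∈ Finset.range (r + 1), Polynomial.C (N.coeff j) *
          (p1 ^ j * q0 ^ (r - j)) := by
      rw [map_sum]
      refine Finset.sum_congr rfl fun j _ => ?_
      rw [map_mul, map_mul, map_pow, map_pow, fin_up, ← hp1, ← hq0]
    rw [h1]
    apply dvd_of_root p0 _ hmon hirr (u ⟨0, hr⟩) (hroot _)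
    have h2 : ((∑ j ∈ Finset.range (r + 1), Polynomial.C (N.coeff j) *
        (p1 ^ j * q0 ^ (r - j))).map (io k : Po 4 k →+* LA k)).eval (u ⟨0, hr⟩) =
        ∑ j ∈ Finset.range (r + 1), (N.map (io k : Po 4 k →+* LA k)).coeff j *
          (B ⟨0, hr⟩ ^ j * A ⟨0, hr⟩ ^ (r - j)) := by
      rw [Polynomial.map_sum, Polynomial.eval_finsetSum]
      refine Finset.sum_congr rfl fun j _ => ?_
      rw [Polynomial.map_mul, Polynomial.map_mul, Polynomial.map_pow, Polynomial.map_pow,
        Polynomial.map_C, Polynomial.eval_mul, Polynomial.eval_mul, Polynomial.eval_pow,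
        Polynomial.eval_pow, Polynomial.eval_C, Polynomial.coeff_map, hA, hB]
    have h3 : ∑ j ∈ Finset.range (r + 1), (N.map (io k : Po 4 k →+* LA k)).coeff j *
          (B ⟨0, hr⟩ ^ j * A ⟨0, hr⟩ ^ (r - j)) = A ⟨0, hr⟩ ^ r *
        (N.map (io k : Po 4 k →+* LA k)).eval (B ⟨0, hr⟩ / A ⟨0, hr⟩) := by
      rw [Polynomial.eval_eq_sum_range' (n := r + 1) (by
        rw [Polynomial.natDegree_map_eq_of_injective (f := (io k : Po 4 k →+* LA k)) (io_inj k)]
        omega), Finset.mul_sum]
      refine Finset.sum_congr rfl fun j hj => ?_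
      have hj' : j ≤ r := Nat.lt_succ_iff.1 (Finset.mem_range.1 hj)
      have h4 : A ⟨0, hr⟩ ^ r = A ⟨0, hr⟩ ^ (r - j) * A ⟨0, hr⟩ ^ j := by
        rw [← pow_add, Nat.sub_add_cancel hj']
      have h5 := hA0 ⟨0, hr⟩
      rw [h4, div_pow]
      field_simp
    rw [h2, h3, hN, Polynomial.eval_prod, Finset.prod_eq_zero (Finset.mem_univ ⟨0, hr⟩), mul_zero]
    rw [Polynomial.eval_sub, Polynomial.eval_mul, Polynomial.eval_X, Polynomial.eval_C,
      Polynomial.eval_C, mul_div_cancel₀ _ (hA0 _), sub_self]
  · -- specialization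
    intro w u' hu'
    rw [← hp0] at hu'
    have h1 := nres_map (eval w) p0 p1 q0 r n hn hn' u' hu'
    rw [← hNd] at h1
    have h2 : ∑ j ∈ Finset.range (r + 1), Polynomial.C (eval w (N.coeff j)) * Polynomial.X ^ j =
        N.map (eval w) := by
      have h3 := (N.map (eval w)).as_sum_range_C_mul_X_pow' (n := r + 1)
        (lt_of_le_of_lt Polynomial.natDegree_map_le (by omega))
      rw [h3]
      refine Finset.sum_congr rfl fun j _ => ?_
      rw [Polynomial.coeff_map]
    rw [h2, h1]
    refine Finset.prod_congr rfl fun j _ => ?_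
    rw [eval_eq_eval_mv_eval', eval_eq_eval_mv_eval', ← hq0, ← hp1]

end Pool.Agent.H77.TX
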